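import Mathlib

namespace Pool.Agent.Results.MP_dbbe21_pr.Rank3

open Finset Matrix

variable {N : ℕ}

/-- Marginal kernels. -/
def Ker (K : Matrix (Fin N) (Fin N) ℝ) : Prop := K.PosSemidef ∧ (1 - K).PosSemidef

/-- The principal minor `det K_T`. -/
noncomputable def minor (K : Matrix (Fin N) (Fin N) ℝ) (T : Finset (Fin N)) : ℝ :=
  (K.submatrix (Subtype.val : T → Fin N) Subtype.val).det

/-- `P(X = S)`, by inclusion-exclusion from `P(T ⊆ X) = det K_T`. -/
noncomputable def pr (K : Matrix (Fin N) (Fin N) ℝ) (S : Finset (Fin N)) : ℝ :=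
  ∑ T with S ⊆ T, (-1) ^ #(T \ S) * minor K T

/-- The likelihood of a training set. -/
noncomputable def L (X : List (Finset (Fin N))) (K : Matrix (Fin N) (Fin N) ℝ) : ℝ :=
  (X.map (pr K)).prod

lemma m1 (K : Matrix (Fin N) (Fin N) ℝ) (i : Fin N) : minor K {i} = K i i := by simp [minor]

lemma m2 (K : Matrix (Fin N) (Fin N) ℝ) {i j : Fin N} (h : i < j) :
    minor K {i, j} = K i i * K j j - K i j * K j i := by
  rw [minor, ← det_submatrix_equiv_self (Finset.orderIsoOfFin _ (card_pair h.ne)).toEquiv,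
    det_fin_two]
  have := Finset.orderEmbOfFin_unique (card_pair h.ne) (f := ![i, j])
    (fun k => by fin_cases k <;> simp) (Fin.strictMono_iff_lt_succ.2 fun k => by fin_cases k; simpa)
  simp [← this]

lemma m3 (K : Matrix (Fin 3) (Fin 3) ℝ) : minor K {0, 1, 2} = K.det :=
  det_submatrix_equiv_self (Equiv.subtypeUnivEquiv (by decide)) K

lemma hL (K : Matrix (Fin 3) (Fin 3) ℝ) : L [∅, ∅, ∅, {0, 1}, {0, 2}, {1, 2}] K = (1 - K).det ^ 3 *
    ((K 0 0 * K 1 1 - K 0 1 * K 1 0 - K.det) * (K 0 0 * K 2 2 - K 0 2 * K 2 0 - K.det) *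
      (K 1 1 * K 2 2 - K 1 2 * K 2 1 - K.det)) := by
  have u : ∀ f : Finset (Fin 3) → ℝ, ∑ T, f T = f ∅ + (f {0} + (f {1} + (f {2} + (f {0, 1} +
      (f {0, 2} + (f {1, 2} + f {0, 1, 2})))))) := fun f => by
    rw [show (univ : Finset (Finset (Fin 3))) =
      {∅, {0}, {1}, {2}, {0, 1}, {0, 2}, {1, 2}, {0, 1, 2}} by decide]
    repeat rw [sum_insert (by decide)]
    rw [sum_singleton]
  have e : minor K ∅ = 1 := by simp [minor]
  have a : pr K ∅ = (1 - K).det := by
    simp (config := { decide := true }) only [pr, sum_filter, u, m1, m3, m2 K (show 0 < 1 by decide),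
      m2 K (show 0 < 2 by decide), m2 K (show 1 < 2 by decide), e, if_true, sdiff_empty]
    simp (config := { decide := true }) [det_fin_three, one_apply, card_insert_of_notMem]
    ring
  simp only [L, List.map, List.prod_cons, List.prod_nil, a]
  simp (config := { decide := true }) only [pr, sum_filter, u, m3, m2 K (show 0 < 1 by decide),
    m2 K (show 0 < 2 by decide), m2 K (show 1 < 2 by decide), if_true, if_false,
    show #(({0, 1, 2} : Finset (Fin 3)) \ {0, 1}) = 1 by decide,
    show #(({0, 1, 2} : Finset (Fin 3)) \ {0, 2}) = 1 by decide,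
    show #(({0, 1, 2} : Finset (Fin 3)) \ {1, 2}) = 1 by decide, Finset.sdiff_self, card_empty]
  ring

theorem result : ∃ (k N : ℕ) (X : List (Finset (Fin N))) (K : Matrix (Fin N) (Fin N) ℝ), 1 ≤ k ∧
    (∀ S ∈ X, #S ≤ k) ∧ Ker K ∧ (∀ K', Ker K' → L X K' ≤ L X K) ∧ k < K.rank := by
  have cl : ∀ f : Matrix (Fin 3) (Fin 3) ℝ → Matrix (Fin 3) (Fin 3) ℝ, Continuous f →
      IsClosed {K | (f K).PosSemidef} := fun f hf => by
    simp only [posSemidef_iff_dotProduct_mulVec, Set.setOf_and, Set.setOf_forall]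
    exact (isClosed_eq (by fun_prop) hf).inter (isClosed_iInter fun x =>
      isClosed_le continuous_const (by fun_prop))
  have cp : IsCompact {K : Matrix (Fin 3) (Fin 3) ℝ | Ker K} := by
    refine (isCompact_univ_pi fun _ => isCompact_univ_pi fun _ => isCompact_Icc (a := (-1 : ℝ))
      (b := 1)).of_isClosed_subset ((cl id continuous_id).inter (cl _ (by fun_prop)))
      fun K hK i _ j _ => ?_
    have a := hK.1.dotProduct_mulVec_nonneg (Pi.single i 1 + Pi.single j 1)
    have b := hK.1.dotProduct_mulVec_nonneg (Pi.single i 1 - Pi.single j 1)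
    have c := fun i => hK.2.diag_nonneg (i := i)
    have d : K j i = K i j := by simpa using hK.1.1.apply i j
    simp [mulVec_add, mulVec_sub] at a b c
    constructor <;> linarith [c i, c j]
  have k0 : Ker ((1 / 3 : ℝ) • (1 : Matrix (Fin 3) (Fin 3) ℝ)) :=
    ⟨PosSemidef.one.smul (by norm_num), by
      rw [show 1 - (1 / 3 : ℝ) • (1 : Matrix (Fin 3) (Fin 3) ℝ) = (2 / 3 : ℝ) • 1 by module]
      exact PosSemidef.one.smul (by norm_num)⟩
  obtain ⟨K, hK, hm⟩ := cp.exists_isMaxOn ⟨_, k0⟩ (f := L [∅, ∅, ∅, {0, 1}, {0, 2}, {1, 2}])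
    (by rw [funext hL]; fun_prop)
  refine ⟨2, 3, _, K, by norm_num, by decide, hK, fun K' h => hm h, ?_⟩
  by_cases h : K.det = 0
  · exfalso
    have h0 : L _ _ ≤ L _ K := hm k0
    have t := hK.1.1.trace_eq_sum_eigenvalues
    have d := hK.1.1.det_eq_prod_eigenvalues
    have c := congrArg (Polynomial.eval 1) hK.1.1.charpoly_eq
    rw [eval_charpoly] at c
    have p0 := hK.1.eigenvalues_nonneg
    have p1 : ∀ i, hK.1.1.eigenvalues i ≤ 1 := fun i => by
      have := hK.2.dotProduct_mulVec_nonneg (hK.1.1.eigenvectorBasis i)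
      rw [sub_mulVec, hK.1.1.mulVec_eigenvectorBasis, one_mulVec, dotProduct_sub, dotProduct_smul]
        at this
      have e := (dotProduct_star_self_pos_iff (v := (hK.1.1.eigenvectorBasis i).ofLp)).2 fun e =>
        hK.1.1.eigenvectorBasis.toBasis.ne_zero i (by ext; simp [e])
      exact le_of_mul_le_mul_right (by simpa using this) e
    have q : ∀ i j, i < j → 0 ≤ K i i * K j j - K i j * K j i := fun i j e =>
      (hK.1.submatrix _).det_nonneg.trans_eq (m2 K e)
    have q1 := q 0 1 (by decide)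
    have q2 := q 0 2 (by decide)
    have q3 := q 1 2 (by decide)
    rw [hL, hL, h] at h0
    have e : (1 - K).det = 1 - K.trace + ((K 0 0 * K 1 1 - K 0 1 * K 1 0) +
        (K 0 0 * K 2 2 - K 0 2 * K 2 0) + (K 1 1 * K 2 2 - K 1 2 * K 2 1)) - K.det := by
      simp [det_fin_three, trace_fin_three, one_apply]; ring
    simp only [Fin.sum_univ_three, Fin.prod_univ_three, RCLike.ofReal_real_eq_id, id, map_one,
      Polynomial.eval_mul, Polynomial.eval_sub, Polynomial.eval_X, Polynomial.eval_C] at t d c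
    generalize hK.1.1.eigenvalues = l at *
    generalize K 0 0 * K 1 1 - K 0 1 * K 1 0 = x at *
    generalize K 0 0 * K 2 2 - K 0 2 * K 2 0 = y at *
    generalize K 1 1 * K 2 2 - K 1 2 * K 2 1 = z at *
    have s : ∀ i j, (1 - l i) * (1 - l j) * (l i * l j) ≤ 1 / 16 := fun i j => by
      nlinarith [sq_nonneg (l i - 1 / 2), sq_nonneg (l j - 1 / 2),
        mul_nonneg (p0 i) (sub_nonneg.2 (p1 i)), mul_nonneg (p0 j) (sub_nonneg.2 (p1 j))]
    have dn := hK.2.det_nonneg
    rw [h] at d e
    have s2 : (1 - K).det * (x + y + z) ≤ 1 / 16 := by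
      rw [show x + y + z = l 0 * l 1 + l 0 * l 2 + l 1 * l 2 by linarith, c]
      rcases mul_eq_zero.1 d.symm with g | g
      · rcases mul_eq_zero.1 g with g | g <;> rw [g]
        exacts [by linarith [s 1 2], by linarith [s 0 2]]
      · rw [g]; linarith [s 0 1]
    have s3 : 27 * (x * y * z) ≤ (x + y + z) ^ 3 := by
      nlinarith [mul_nonneg q1 (sq_nonneg (y - z)), mul_nonneg q2 (sq_nonneg (x - z)),
        mul_nonneg q3 (sq_nonneg (x - y)), mul_nonneg (add_nonneg (add_nonneg q1 q2) q3)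
          (add_nonneg (add_nonneg (sq_nonneg (x - y)) (sq_nonneg (y - z))) (sq_nonneg (x - z)))]
    have s4 := pow_le_pow_left₀ (by positivity) s2 3
    have s5 := mul_le_mul_of_nonneg_left s3 (pow_nonneg dn 3)
    generalize (1 - K).det = D at *
    simp (config := { decide := true }) [det_fin_three, one_apply] at h0
    linarith [mul_pow D (x + y + z) 3]
  · rw [rank_of_isUnit K ((isUnit_iff_isUnit_det K).2 (Ne.isUnit h))]
    simp

end Pool.Agent.Results.MP_dbbe21_pr.Rank3
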